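import Pool.Agent.EDG.Stmts

/-!
# Squad EDG, row BZM: the matrix part of the Bezout argument
-/

set_option autoImplicit false

namespace Pool.Agent.EDG.H7

open Polynomial Finset

theorem comb_degree (b : ℕ) (v : Fin b → ℤ[X]) :
    (∑ k, C (v k) * h (k : ℕ)).degree < (b : WithBot ℕ) := by
  rw [← mem_degreeLT]
  refine Submodule.sum_mem _ fun k _ => ?_
  rw [mem_degreeLT]
  refine lt_of_le_of_lt (degree_mul_le _ _) ?_
  refine lt_of_le_of_lt (add_le_add_left degree_C_le _) ?_
  rw [zero_add, degree_eq_natDegree (h_monic _).ne_zero, h_natDegree]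
  exact_mod_cast k.2

theorem comb_zero : ∀ (b : ℕ) (v : Fin b → ℤ[X]), ∑ k, C (v k) * h (k : ℕ) = 0 → v = 0 := by
  intro b
  induction b with
  | zero => intro v _; exact Subsingleton.elim _ _
  | succ b ih =>
    intro v hv
    rw [Fin.sum_univ_castSucc] at hv
    have h1 := congrArg (fun p => p.coeff b) hv
    simp only [coeff_add, coeff_zero, Fin.val_castSucc, Fin.val_last, coeff_C_mul] at h1
    rw [coeff_eq_zero_of_degree_lt (comb_degree b fun k => v k.castSucc), zero_add] at h1
    have h2 : (h b).coeff b = 1 := by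
      have := (h_monic b).coeff_natDegree
      rwa [h_natDegree] at this
    rw [h2, mul_one] at h1
    rw [h1] at hv
    simp only [C_0, zero_mul, add_zero, Fin.val_castSucc] at hv
    have h3 := ih (fun k => v k.castSucc) hv
    funext k
    refine Fin.lastCases ?_ (fun k => ?_) k
    · simpa using h1
    · simpa using congrFun h3 k

theorem bzm : BzmStmt := by
  intro _ hbc hmin hrnk hsyl N m η q Θ B c₀ A B' S J hm hN hΘ hB hA hΘA hBB hc₀ hA0 hB0 hrel hq hJ
  obtain ⟨hbc1, hbc2⟩ := hbc ‹HbaStmt›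
  obtain ⟨N₁, hB⟩ := hB
  set a := A.natDegree with ha
  set b := B'.natDegree with hb
  let p : Fin (a + b) → ℤ[X][X] :=
    Fin.addCases (fun k : Fin a => h (k : ℕ) * B') (fun k : Fin b => h (k : ℕ) * A)
  have hpl : ∀ k : Fin a, p (Fin.castAdd b k) = h (k : ℕ) * B' := fun k => by simp [p]
  have hpr : ∀ k : Fin b, p (Fin.natAdd a k) = h (k : ℕ) * A := fun k => by simp [p]
  have hN' : ∀ k, ∃ N' : ℕ, InF N' (m + η) (c₀ * p k) := by
    intro k
    refine Fin.addCases (fun k => ?_) (fun k => ?_) k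
    · obtain ⟨N', h1⟩ := hbc2 N₁ m η (k : ℕ) B hB (lt_of_lt_of_le k.2 hA)
      refine ⟨N', ?_⟩
      rw [hpl, mul_left_comm, ← hBB]
      exact h1
    · obtain ⟨N', h1⟩ := hbc1 N m η (k : ℕ) Θ hΘ hN
      refine ⟨N', ?_⟩
      rw [hpr, mul_left_comm, ← hΘA]
      exact h1
  choose N' hN' using hN'
  have hN2 : ∀ k, InF (∑ k, N' k) (m + η) (c₀ * p k) := fun k =>
    (hN' k).mono (Finset.single_le_sum (fun _ _ => Nat.zero_le _) (Finset.mem_univ k)) le_rfl
  choose P hP1 hP2 using hN2
  set N₂ := ∑ k, N' k with hN2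
  let M : Matrix (Fin N₂) (Fin (a + b)) ℤ[X] := fun i k => P k (i : ℕ)
  have hM : ∀ k, c₀ * p k = ∑ i : Fin N₂, C (M i k) * h (i : ℕ) := by
    intro k
    rw [hP2 k, Finset.sum_range]
  have hdeg : ∀ i j, (M i j).natDegree ≤ m + η - 1 := by
    intro i j
    have h1 := hP1 j (i : ℕ)
    by_cases h0 : P j (i : ℕ) = 0
    · simp [M, h0]
    · rw [degree_eq_natDegree h0] at h1
      have h2 : (P j (i : ℕ)).natDegree < m + η := by exact_mod_cast h1
      show (P j (i : ℕ)).natDegree ≤ m + η - 1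
      omega
  have hind : ∀ v : Fin (a + b) → ℤ[X], M.mulVec v = 0 → v = 0 := by
    intro v hv
    have h1 : c₀ * ∑ k, C (v k) * p k = 0 := by
      have h2 : c₀ * ∑ k, C (v k) * p k = ∑ i : Fin N₂, C (M.mulVec v i) * h (i : ℕ) := by
        rw [Finset.mul_sum]
        have h3 : ∀ k, c₀ * (C (v k) * p k) = ∑ i : Fin N₂, C (M i k * v k) * h (i : ℕ) := by
          intro k
          rw [mul_left_comm, hM k, Finset.mul_sum]
          refine Finset.sum_congr rfl fun i _ => ?_
          rw [C_mul]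
          ring
        rw [Finset.sum_congr rfl fun k _ => h3 k, Finset.sum_comm]
        refine Finset.sum_congr rfl fun i _ => ?_
        rw [← Finset.sum_mul, Matrix.mulVec, dotProduct, map_sum]
      rw [h2, hv]
      simp
    have h4 := (mul_eq_zero.1 h1).resolve_left hc₀
    rw [Fin.sum_univ_add] at h4
    have h5 : (∑ k : Fin b, C (v (Fin.natAdd a k)) * h (k : ℕ)) * A +
        (∑ k : Fin a, C (v (Fin.castAdd b k)) * h (k : ℕ)) * B' = 0 := by
      simp only [hpl, hpr] at h4
      rw [Finset.sum_mul, Finset.sum_mul, add_comm]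
      simp only [mul_assoc]
      exact h4
    obtain ⟨h6, h7⟩ := hsyl A B' _ _ hrel hA0 hB0
      (by rw [degree_eq_natDegree hB0]; exact comb_degree b fun k => v (Fin.natAdd a k))
      (by rw [degree_eq_natDegree hA0]; exact comb_degree a fun k => v (Fin.castAdd b k)) h5
    have h8 := comb_zero b _ h6
    have h9 := comb_zero a _ h7
    funext k
    refine Fin.addCases (fun k => ?_) (fun k => ?_) k
    · exact congrFun h9 k
    · exact congrFun h8 k
  refine hmin N₂ (a + b) (m + η - 1) q M S hdeg hind fun z hz => ?_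
  obtain ⟨hJ1, hJ2⟩ := hJ z hz
  refine hrnk N₂ (a + b) q M z p c₀ (J z) hJ1 hq (fun k => ?_) (fun k y hy => ?_) hM
  · refine Fin.addCases (fun k => ?_) (fun k => ?_) k
    · rw [hpl]
      refine lt_of_le_of_lt natDegree_mul_le ?_
      rw [h_natDegree]
      have := k.2
      omega
    · rw [hpr]
      refine lt_of_le_of_lt natDegree_mul_le ?_
      rw [h_natDegree]
      have := k.2
      omega
  · obtain ⟨h1, h2⟩ := hJ2 y hy
    refine Fin.addCases (fun k => ?_) (fun k => ?_) k
    · rw [hpl, map_mul, h2, mul_zero]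
    · rw [hpr, map_mul, h1, mul_zero]

end Pool.Agent.EDG.H7
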